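import Pool.Agent.R489.HB.Stm

/-!
# Gluing the decompositions at a separating triangle
-/

set_option autoImplicit false
set_option linter.all false

namespace Pool.Agent.R146.HB

open Finset Pool.Agent.R489.HB

theorem mem_edg {W : Type} [DecidableEq W] {Φ : Finset (Finset W)} {e : Finset W} :
    e ∈ edg Φ ↔ ∃ f ∈ Φ, e ⊆ f ∧ e.card = 2 := by
  unfold edg
  simp only [mem_biUnion, mem_powersetCard]

theorem mem_vts {W : Type} [DecidableEq W] {Φ : Finset (Finset W)} {x : W} :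
    x ∈ vts Φ ↔ ∃ f ∈ Φ, x ∈ f := by
  unfold vts
  simp only [mem_biUnion, id]

theorem GLUE : S_GLUE := by
  intro W _ Φ1 Φ2 T T' a h3 hT' hT hv he hr1 hr2
  obtain ⟨c1, h1⟩ := hr1
  obtain ⟨c2, h2⟩ := hr2
  classical
  refine ⟨fun e => if e ∈ edg Φ1 then c1 e else c2 e, fun i => ?_⟩
  -- the two parts
  have hE : {e : Finset W | e ∈ edg (Φ1 ∪ Φ2) ∧ ¬ e ⊆ T ∧
      (if e ∈ edg Φ1 then c1 e else c2 e) = i} =
      {e : Finset W | e ∈ edg Φ1 ∧ ¬ e ⊆ T ∧ c1 e = i} ∪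
      {e : Finset W | e ∈ edg Φ2 ∧ e ∉ edg Φ1 ∧ ¬ e ⊆ T ∧ c2 e = i} := by
    ext e
    simp only [Set.mem_setOf_eq, Set.mem_union]
    have hu : e ∈ edg (Φ1 ∪ Φ2) ↔ e ∈ edg Φ1 ∨ e ∈ edg Φ2 := by
      rw [mem_edg, mem_edg, mem_edg]
      constructor
      · rintro ⟨f, hf, h⟩
        rcases mem_union.1 hf with hf | hf
        · exact Or.inl ⟨f, hf, h⟩
        · exact Or.inr ⟨f, hf, h⟩
      · rintro (⟨f, hf, h⟩ | ⟨f, hf, h⟩)
        · exact ⟨f, mem_union_left _ hf, h⟩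
        · exact ⟨f, mem_union_right _ hf, h⟩
    rw [hu]
    by_cases h : e ∈ edg Φ1
    · simp [h]
    · simp [h]
  rw [hE]
  -- the map that restricts to the coordinates outside
  let r : (W → ZMod 2) →ₗ[ZMod 2] (W → ZMod 2) :=
    { toFun := fun f x => if x ∈ vts Φ1 then 0 else f x
      map_add' := by
        intro f g
        funext x
        by_cases h : x ∈ vts Φ1
        · simp [h]
        · simp [h]
      map_smul' := by
        intro s f
        funext x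
        by_cases h : x ∈ vts Φ1
        · simp [h]
        · simp [h] }
  have hr : ∀ f x, r f x = if x ∈ vts Φ1 then 0 else f x := fun f x => rfl
  have hTv : T ⊆ vts Φ1 := fun x hx => mem_vts.2 ⟨T, hT, hx⟩
  have hT'v : T' ⊆ vts Φ1 := by
    rw [← hv]
    exact inter_subset_left
  have hr1 : ∀ e ∈ {e : Finset W | e ∈ edg Φ1 ∧ ¬ e ⊆ T ∧ c1 e = i}, r (vec T a i e) = 0 := by
    rintro e ⟨he1, -, -⟩
    funext x
    rw [hr]
    by_cases h : x ∈ vts Φ1
    · rw [if_pos h]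
      rfl
    · rw [if_neg h]
      unfold vec
      rw [if_neg]
      · rfl
      · rintro ⟨hx, -⟩
        obtain ⟨f, hf, hef, -⟩ := mem_edg.1 he1
        exact h (mem_vts.2 ⟨f, hf, hef hx⟩)
  have hr2 : ∀ e ∈ {e : Finset W | e ∈ edg Φ2 ∧ e ∉ edg Φ1 ∧ ¬ e ⊆ T ∧ c2 e = i},
      r (vec T a i e) = vec T' a i e := by
    rintro e ⟨he2, -, -, -⟩
    funext x
    rw [hr]
    by_cases h : x ∈ vts Φ1
    · rw [if_pos h]
      unfold vec
      rw [if_neg]
      rintro ⟨hx, hx', -⟩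
      obtain ⟨f, hf, hef, -⟩ := mem_edg.1 he2
      apply hx'
      rw [← hv]
      exact mem_inter.2 ⟨h, mem_vts.2 ⟨f, hf, hef hx⟩⟩
    · rw [if_neg h]
      unfold vec
      have hx1 : x ∉ T := fun h' => h (hTv h')
      have hx2 : x ∉ T' := fun h' => h (hT'v h')
      simp only [hx1, hx2, not_false_eq_true, true_and]
  refine LinearIndepOn.union_of_quotient ?_ ?_
  · refine (h1 i).mono ?_
    rintro e ⟨he1, h4, h5⟩
    refine ⟨?_, h4, h5⟩
    obtain ⟨f, hf, h⟩ := mem_edg.1 he1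
    exact mem_edg.2 ⟨f, mem_insert_of_mem hf, h⟩
  · have hker : Submodule.span (ZMod 2) (vec T a i ''
        {e : Finset W | e ∈ edg Φ1 ∧ ¬ e ⊆ T ∧ c1 e = i}) ≤ LinearMap.ker r := by
      rw [Submodule.span_le]
      rintro _ ⟨e, he1, rfl⟩
      exact hr1 e he1
    refine LinearIndepOn.of_comp (Submodule.liftQ _ r hker) ?_
    have h6 : LinearIndepOn (ZMod 2) (vec T' a i)
        {e : Finset W | e ∈ edg Φ2 ∧ e ∉ edg Φ1 ∧ ¬ e ⊆ T ∧ c2 e = i} := by
      refine (h2 i).mono ?_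
      rintro e ⟨he2, h4, -, h5⟩
      obtain ⟨f, hf, hef, hec⟩ := mem_edg.1 he2
      refine ⟨mem_edg.2 ⟨f, mem_insert_of_mem hf, hef, hec⟩, fun h7 => h4 ?_, h5⟩
      have h8 : e ∈ edg Φ1 ∩ edg Φ2 := by
        rw [he]
        exact mem_powersetCard.2 ⟨h7, hec⟩
      exact (mem_inter.1 h8).1
    refine h6.congr ?_
    intro e he'
    change vec T' a i e = Submodule.liftQ _ r hker (Submodule.mkQ _ (vec T a i e))
    rw [Submodule.mkQ_apply, Submodule.liftQ_apply, hr2 e he']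

end Pool.Agent.R146.HB
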